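import Pool.Agent.P8H63.RS.Stm

set_option autoImplicit false
set_option linter.unusedSectionVars false

/-!
# Project RS, second part: the equality case `(s - 1) m = n`, `s ∤ m`
-/

namespace Pool.Agent.P8H63.RS

open Module
open Pool.Agent.W332.OK (tw NN)

/-- package EQA (100 lines). Write `r(X) = n - finrank (NN β X)`. `r` is submodular:
`r (X ⊔ Y) + r (X ⊓ Y) ≤ r X + r Y` (as in `gg_super` of `W332/OK/Abs.lean`; `finrank (NN β X) ≤ n`) and invariant:
`r (tw σ X) = r X` (`NN_tw`, `finrank_tw`). Let `W = ⨆ σ, tw σ U`, `u = finrank U`. Consider the `X ≤ W` with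
`r X ≤ c * finrank X` and `u ∣ finrank X` (for instance `⊥`: `r ⊥ = 0`), and take a maximal one (`wellFounded_gt`, as in
`Pool/Agent/P8H63/KS/Slope.lean`). Claim `tw σ U ≤ X` for all `σ`, so `X = W`. Let `Y = tw σ U`, `D = X ⊓ Y`. If
`D = ⊥` then `X ⊔ Y` is in the family: `finrank = finrank X + u`, `r (X ⊔ Y) ≤ r X + r Y ≤ c * finrank (X ⊔ Y)`; so `X ⊔ Y = X`
by maximality, and `Y ≤ X`. If `D ≠ ⊥`: `c * finrank (X ⊔ Y) ≤ r (X ⊔ Y)` by the second hypothesis, so submodularity gives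
`r D ≤ c * finrank D`; then `tw σ.symm D ≤ U` has `r ≤ c * finrank` too, is not zero, so it is `U` by the last
hypothesis; hence `finrank D = u = finrank Y`, `D = Y` and `Y ≤ X`. -/
def S_EQA : Prop :=
  ∀ (κ : Type) [Field κ] [Algebra ℚ κ] [IsGalois ℚ κ] (n : ℕ) (E : Type) [AddCommGroup E]
    [Module κ E] (β : (Fin n → κ) →ₗ[κ] (Fin n → κ) →ₗ[κ] E),
  (∀ (σ : κ ≃ₐ[ℚ] κ) (w v : Fin n → κ), β w v = 0 →
    β (fun i => σ (w i)) (fun i => σ (v i)) = 0) →
  ∀ (c : ℕ) (U : Submodule κ (Fin n → κ)), U ≠ ⊥ →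
  (∀ Y : Submodule κ (Fin n → κ), Y ≤ (⨆ σ : κ ≃ₐ[ℚ] κ, tw σ U) → Y ≠ ⊥ →
    c * finrank κ Y ≤ n - finrank κ (NN β Y)) →
  n - finrank κ (NN β U) ≤ c * finrank κ U →
  (∀ N : Submodule κ (Fin n → κ), N ≤ U → N ≠ ⊥ → N ≠ U →
    c * finrank κ N < n - finrank κ (NN β N)) →
  finrank κ U ∣ finrank κ ↥(⨆ σ : κ ≃ₐ[ℚ] κ, tw σ U)

/-- the hyperplane property (definition as in `Pool/Agent/W254/PA/Transfer.lean`) -/
def HypV {k E : Type} [Field k] [Field E] [Algebra k E] (V : Submodule k E) : Prop :=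
  ∀ (d l : ℕ) (x : Fin d → E) (a : Fin d → Fin l → E), LinearIndependent k x →
    (∀ i j, a i j ∈ V) → (∀ j, ∑ i, x i * a i j = 0) →
    LinearIndependent k (fun j i => a i j) → l ≤ d * (d - 1)

/-- package EQB (120 lines). Let `U = span (range e)`, `t' = finrank N`, `C` a complement of `N` in `U` (inside
`Fin n → κ`, e.g. `Submodule.exists_isCompl` for `N.comap U.subtype`), `b` a basis of `C` (`t - t'` vectors), `e k = p k + q k` with
`p k ∈ N`, `q k ∈ C`, and `z' l = ∑ k, (b.repr (q k) l) • z k`. Then `z'` is independent: a relation with coefficients `a l` gives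
`∑ l, a l * b.repr (q k) l = 0` for all `k` (independence of `z`), and the `q k` span `C`, so `a = 0`. For `w ∈ NN β N`:
`0 = ∑ k, z k * β w (e k) = ∑ k, z k * β w (q k) = ∑ l, z' l * β w (b l)`. The map `NN β N → (Fin (t - t') → E)`,
`w ↦ (β w (b l))_l` has kernel `NN β U` (`NN_sup`), and its range has dimension at most `(t - t') (t - t' - 1)` by `HypV` applied
to `z'` and a basis of the range (compare `hr` in the proof of `main_ks` in `Pool/Agent/P8H63/KS/Inst2.lean`). -/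
def S_EQB : Prop :=
  ∀ (κ E : Type) [Field κ] [Field E] [Algebra κ E] (n : ℕ)
    (β : (Fin n → κ) →ₗ[κ] (Fin n → κ) →ₗ[κ] E) (V : Submodule κ E), HypV V →
    (∀ w v, β w v ∈ V) → ∀ (t : ℕ) (z : Fin t → E) (e : Fin t → Fin n → κ),
    LinearIndependent κ z → LinearIndependent κ e → (∀ w, ∑ k, z k * β w (e k) = 0) →
    ∀ N : Submodule κ (Fin n → κ), N ≤ Submodule.span κ (Set.range e) →
    finrank κ (NN β N) ≤ finrank κ (NN β (Submodule.span κ (Set.range e))) +
      (t - finrank κ N) * (t - finrank κ N - 1)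

end Pool.Agent.P8H63.RS
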