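import Pool.Agent.P8H63.KS.Inst2
import Pool.Agent.P8H63.RS.Stm2
import Pool.Agent.P8H21.RS.Slo

set_option autoImplicit false
set_option linter.unusedSectionVars false

/-!
# The equality case
-/

namespace Pool.Agent.P8H63.RS

open Module
open Pool.Agent.W332.OK
open Pool.Agent.W254.PA (Hyp)
open Pool.Agent.P8H63.KS (exists_rep exists_min_rep RepA)

section inst

variable {E : Type} [Field E] [CharZero E] [IsAlgClosed E]

variable (Λ : Submodule ℚ E) (hB : ∀ (d : ℕ) (b : Fin d → E), (∀ k, b k ∈ Λ) →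
  LinearIndependent ℚ b → LinearIndependent (algebraicClosure ℚ E) b)

include hB

/-- **The equality case.** -/
theorem main_eq (hEA : S_EQA) (hEB : S_EQB) {n : ℕ} (V : Submodule (algebraicClosure ℚ E) E) (hΛV : ∀ z ∈ Λ, z ∈ V)
    (hH : Hyp V) (M : Matrix (Fin n) (Fin n) E) (hM : ∀ i j, M i j ∈ Λ)
    (hno : ∀ w v : Fin n → ℚ, w ≠ 0 → v ≠ 0 → ∑ i, ∑ j, ((w i : ℚ) : E) * M i j * ((v j : ℚ) : E) ≠ 0)
    (ξ : Fin n → E) (hξ : ξ ≠ 0) (hker : ∀ i, ∑ j, M i j * ξ j = 0)
    (heq : (finrank (algebraicClosure ℚ E)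
      (Submodule.span (algebraicClosure ℚ E) (Set.range ξ)) - 1) *
      finrank ℚ (Submodule.span ℚ (Set.range ξ)) = n) :
    finrank (algebraicClosure ℚ E) (Submodule.span (algebraicClosure ℚ E) (Set.range ξ)) ∣
      finrank ℚ (Submodule.span ℚ (Set.range ξ)) := by
  classical
  have hsm : ∀ (c : algebraicClosure ℚ E) (z : E), c • z = (c : E) * z := fun c z => rfl
  obtain ⟨A, hAst, hAm, hArep⟩ := exists_rep ξ
  obtain ⟨s, hs⟩ : ∃ s, s = finrank (algebraicClosure ℚ E)
    (Submodule.span (algebraicClosure ℚ E) (Set.range ξ)) := ⟨_, rfl⟩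
  obtain ⟨mm, hmm⟩ : ∃ mm, mm = finrank ℚ (Submodule.span ℚ (Set.range ξ)) := ⟨_, rfl⟩
  rw [← hs] at hArep
  rw [← hmm] at hAm
  rw [← hs, ← hmm] at heq
  rw [← hs, ← hmm]
  obtain ⟨t, hts, ht1, z, e, heA, hz, hzli, heli⟩ := exists_min_rep A ξ hξ (s := s) hArep
  have hno' : ∀ w v : Fin n → ℚ, w ≠ 0 → v ≠ 0 →
      bil M (fun i => algebraMap ℚ (algebraicClosure ℚ E) (w i))
        (fun i => algebraMap ℚ (algebraicClosure ℚ E) (v i)) ≠ 0 := by
    intro w v hw hv
    have h2 := hno w v hw hv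
    rw [bil_apply]
    have h3 : ∀ q : ℚ, ((algebraMap ℚ (algebraicClosure ℚ E) q : algebraicClosure ℚ E) : E) =
        (q : E) := fun q => by
      rw [eq_ratCast]; push_cast; rfl
    simpa only [h3] using h2
  have hbe := bil_equiv Λ hB M hM
  -- the relation
  have hk : ∀ w, ∑ k, z k * bil M w (e k) = 0 := by
    intro w
    have h1 : ∑ k, z k * bil M w (e k) = ∑ i, (w i : E) * ∑ j, M i j * ξ j := by
      have h2 : ∀ k, z k * bil M w (e k) = ∑ i, ∑ j, z k * ((w i : E) * M i j * (e k j : E)) := by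
        intro k
        rw [bil_apply, Finset.mul_sum]
        exact Finset.sum_congr rfl fun i _ => Finset.mul_sum _ _ _
      rw [Finset.sum_congr rfl (fun k _ => h2 k), Finset.sum_comm]
      refine Finset.sum_congr rfl fun i _ => ?_
      rw [Finset.sum_comm, Finset.mul_sum]
      refine Finset.sum_congr rfl fun j _ => ?_
      rw [hz j, Finset.mul_sum, Finset.mul_sum]
      refine Finset.sum_congr rfl fun k _ => ?_
      rw [hsm]
      ring
    rw [h1]
    refine Finset.sum_eq_zero fun i _ => ?_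
    rw [hker i, mul_zero]
  set U : Submodule (algebraicClosure ℚ E) (Fin n → algebraicClosure ℚ E) :=
    Submodule.span (algebraicClosure ℚ E) (Set.range e) with hU
  have hUA : U ≤ A := by
    rw [hU, Submodule.span_le]
    rintro _ ⟨k, rfl⟩
    exact heA k
  have hUt : finrank (algebraicClosure ℚ E) U = t := by
    rw [hU, finrank_span_eq_card heli, Fintype.card_fin]
  have hU0 : U ≠ ⊥ := by
    intro h
    rw [h, finrank_bot] at hUt
    omega
  have hn : 0 < n := by
    rcases Nat.eq_zero_or_pos n with h | h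
    · subst h
      exact absurd (Subsingleton.elim ξ 0) hξ
    · exact h
  have hmm0 : 0 < mm := by
    rcases Nat.eq_zero_or_pos mm with h | h
    · rw [h, mul_zero] at heq
      omega
    · exact h
  have hs1 : 1 ≤ s - 1 := by
    rcases Nat.eq_zero_or_pos (s - 1) with h | h
    · rw [h, zero_mul] at heq
      omega
    · exact h
  have hVb : ∀ w v, bil M w v ∈ V := by
    intro w v
    rw [bil_apply]
    refine Submodule.sum_mem _ fun k _ => Submodule.sum_mem _ fun l _ => ?_
    have h1 : ((w k : E) * M k l * (v l : E)) = (w k * v l : algebraicClosure ℚ E) • M k l := by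
      rw [hsm]; push_cast; ring
    rw [h1]
    exact V.smul_mem _ (hΛV _ (hM k l))
  have hq := hEB (algebraicClosure ℚ E) E n (bil M) V (fun d l x a h1 h2 h3 h4 => hH d l x a h1 h2 h3 h4)
    hVb t z e hzli heli hk
  rw [← hU] at hq
  -- the conjugates
  obtain ⟨W, hW⟩ : ∃ W : Submodule (algebraicClosure ℚ E) (Fin n → algebraicClosure ℚ E),
    W = ⨆ σ : algebraicClosure ℚ E ≃ₐ[ℚ] algebraicClosure ℚ E, tw σ U := ⟨_, rfl⟩
  have hWA : W ≤ A := by
    rw [hW]
    exact iSup_le fun σ => (Pool.Agent.P8H63.KS.tw_mono σ hUA).trans (hAst σ)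
  have hWst : ∀ σ : algebraicClosure ℚ E ≃ₐ[ℚ] algebraicClosure ℚ E, tw σ W ≤ W := by
    intro σ x hx
    have h1 := Pool.Agent.P8H63.KS.stable_sup U σ _ (by rw [← hW]; exact mem_tw.1 hx)
    rw [← hW] at h1
    simpa only [AlgEquiv.apply_symm_apply] using h1
  have hmin : ∀ Y : Submodule (algebraicClosure ℚ E) (Fin n → algebraicClosure ℚ E), Y ≤ W → Y ≠ ⊥ →
      (s - 1) * finrank (algebraicClosure ℚ E) Y ≤
        n - finrank (algebraicClosure ℚ E) (NN (bil M) Y) := by
    intro Y hYW hY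
    obtain ⟨Z, hZ0, hZle, hZst, hZ⟩ := Pool.Agent.P8H21.RS.slo (algebraicClosure ℚ E) n E (bil M) hbe
      W Y hYW hY
    have hZW : Z ≤ W := hZle.trans (iSup_le hWst)
    have hZm : finrank (algebraicClosure ℚ E) Z ≤ mm :=
      (Submodule.finrank_mono (hZW.trans hWA)).trans hAm
    rw [stab_full (bil M) hbe hno' Z hZ0 hZst, finrank_bot, Nat.sub_zero] at hZ
    have h1 := hZ.trans (Nat.mul_le_mul_left _ hZm)
    have h2 : ((s - 1) * mm) * finrank (algebraicClosure ℚ E) Y =
        n * finrank (algebraicClosure ℚ E) Y :=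
      congrArg (fun x => x * finrank (algebraicClosure ℚ E) Y) heq
    have h3 : ((s - 1) * mm) * finrank (algebraicClosure ℚ E) Y =
        ((s - 1) * finrank (algebraicClosure ℚ E) Y) * mm := by ring
    rw [← h2, h3] at h1
    exact Nat.le_of_mul_le_mul_right h1 hmm0
  have hUW : U ≤ W := by
    intro x hx
    have h1 : x ∈ tw (1 : algebraicClosure ℚ E ≃ₐ[ℚ] algebraicClosure ℚ E) U := by
      rw [mem_tw]
      exact hx
    rw [hW]
    exact (le_iSup (fun σ : algebraicClosure ℚ E ≃ₐ[ℚ] algebraicClosure ℚ E => tw σ U) 1) h1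
  have h1 := hmin U hUW hU0
  have h2 := hq ⊥ bot_le
  rw [NN_bot, finrank_top, finrank_fin_fun, finrank_bot, Nat.sub_zero] at h2
  rw [hUt] at h1
  obtain ⟨q, hqdef⟩ : ∃ q, q = finrank (algebraicClosure ℚ E) (NN (bil M) U) := ⟨_, rfl⟩
  rw [← hqdef] at h1 h2
  have h3 : (s - 1) * t ≤ t * (t - 1) := by omega
  have h4 : s - 1 ≤ t - 1 := by
    rw [mul_comm t] at h3
    exact Nat.le_of_mul_le_mul_right h3 (by omega)
  obtain rfl : t = s := by omega
  have hdvd := hEA (algebraicClosure ℚ E) n E (bil M) hbe (t - 1) U hU0 (by rw [← hW]; exact hmin)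
    (by
      rw [hUt, ← hqdef]
      have : t * (t - 1) = (t - 1) * t := mul_comm _ _
      omega)
    (by
      intro N hNU hN0 hNne
      have h5 := hq N hNU
      have h6 : finrank (algebraicClosure ℚ E) N < t := by
        rw [← hUt]
        exact Submodule.finrank_lt_finrank_of_lt (lt_of_le_of_ne hNU hNne)
      have h7 : 0 < finrank (algebraicClosure ℚ E) N := by
        rw [Nat.pos_iff_ne_zero, Ne, Submodule.finrank_eq_zero]
        exact hN0
      rw [← hqdef] at h5
      obtain ⟨f, hf⟩ : ∃ f, f = finrank (algebraicClosure ℚ E) N := ⟨_, rfl⟩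
      obtain ⟨g, hg⟩ : ∃ g, g = finrank (algebraicClosure ℚ E) (NN (bil M) N) := ⟨_, rfl⟩
      rw [← hf, ← hg] at h5
      rw [← hf] at h6 h7
      rw [← hf, ← hg]
      obtain ⟨a, rfl⟩ : ∃ a, t = f + (a + 1) := ⟨t - f - 1, by omega⟩
      have h8 : f + (a + 1) - f = a + 1 := by omega
      have h9 : f + (a + 1) - 1 = f + a := by omega
      rw [h8, Nat.add_sub_cancel] at h5
      rw [h9] at h1 ⊢
      have h10 : (f + a) * (f + (a + 1)) = (f + a) * f + (a + 1) * a + f * (a + 1) := by ring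
      have h11 : 0 < f * (a + 1) := by positivity
      omega)
  rw [← hW, hUt] at hdvd
  obtain ⟨Z, hZ0, hZle, hZst, hZ⟩ := Pool.Agent.P8H21.RS.slo (algebraicClosure ℚ E) n E (bil M) hbe
    U U le_rfl hU0
  rw [stab_full (bil M) hbe hno' Z hZ0 hZst, finrank_bot, Nat.sub_zero, hUt, ← hqdef] at hZ
  rw [← hW] at hZle
  have h5 : n * t ≤ ((t - 1) * finrank (algebraicClosure ℚ E) Z) * t := by
    refine hZ.trans ?_
    have h6 : n - q ≤ t * (t - 1) := by omega
    calc (n - q) * finrank (algebraicClosure ℚ E) Z ≤ (t * (t - 1)) * finrank (algebraicClosure ℚ E) Z :=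
          Nat.mul_le_mul_right _ h6
      _ = _ := by ring
  have h6 := Nat.le_of_mul_le_mul_right h5 (by omega)
  have h7 : finrank (algebraicClosure ℚ E) Z ≤ finrank (algebraicClosure ℚ E) W :=
    Submodule.finrank_mono hZle
  have h8 : finrank (algebraicClosure ℚ E) W ≤ mm := (Submodule.finrank_mono hWA).trans hAm
  have h9 : (t - 1) * mm ≤ (t - 1) * finrank (algebraicClosure ℚ E) W := by
    rw [heq]
    exact h6.trans (Nat.mul_le_mul_left _ h7)
  have h10 : mm ≤ finrank (algebraicClosure ℚ E) W := Nat.le_of_mul_le_mul_left h9 (by omega)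
  have h11 : finrank (algebraicClosure ℚ E) W = mm := le_antisymm h8 h10
  rwa [h11] at hdvd

end inst

end Pool.Agent.P8H63.RS
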