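import Pool.Agent.P8H63.RS.LstB
import Pool.Agent.P8H63.KS.Fin2
import Pool.Agent.P8H59.RS.Stb
import Pool.Agent.P8H26.RS.Mai
import Pool.Agent.P8H7.RS.Mat
import Pool.Agent.P8H75.RS.Lka
import Pool.Agent.P8H21.RS.Slo

set_option autoImplicit false

/-!
# Ranks of matrices of logarithms on algebraic subspaces: the complex and the `p`-adic case
-/

namespace Pool.Agent.P8H63.RS

open Module
open Pool.Agent.W254.PA (ObsProp Lθ mem_Lθ obsProp_padic logs exists_theta ic ic_log_mem)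
open Pool.Agent.H301R2.SSE (Lg)

theorem obs_lg : ObsProp Lg := by
  intro w b l r A γ ω u x y h1 h2 h3 h4 κ μ σ hκ hc
  obtain ⟨Af', Rm', W0, G0, g1, g2, g3, g4, g5⟩ :=
    Pool.Agent.H335R2.Obs.obstruction_of Pool.Agent.H301R2.SSE.zeg A γ ω u x y h1 h2 h3 h4
      κ μ σ hκ hc
  exact ⟨Af', Rm', W0, G0, g1, g2, g3, fun s hs => (g4 s).1 hs, g5⟩

theorem obs_mono {𝓛 𝓛' : Submodule ℚ ℂ} (h : 𝓛' ≤ 𝓛) (hO : ObsProp 𝓛) : ObsProp 𝓛' := by
  intro w b l r A γ ω u x y hγ hω hu huv κ μ σ hκ hcount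
  exact hO w b l r A γ ω u x y hγ hω (fun j q => h (hu j q)) huv κ μ σ hκ hcount

theorem main_c {𝓛 : Submodule ℚ ℂ} (hO : ObsProp 𝓛) (hB : Bak ℂ 𝓛) : MainF ℂ 𝓛 :=
  Pool.Agent.P8H7.RS.mat 𝓛 (Pool.Agent.P8H26.RS.mai
    (Pool.Agent.P8H59.RS.abs Pool.Agent.P8H21.RS.slo Pool.Agent.P8H59.RS.stb) 𝓛 (P0 𝓛) (P0_mem 𝓛) hB
    (Pool.Agent.P8H75.RS.lka 𝓛 (P0 𝓛) (lstk 𝓛 hO)))

theorem bak_lg : Bak ℂ Lg := by
  intro d b hb hli
  have h1 := Pool.Agent.W254.HP.opt_indep b (fun k => hb k) hli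
  exact h1.comp some (Option.some_injective _)

theorem main_complex : MainF ℂ Lg := main_c obs_lg bak_lg

section padic

open Pool.Agent.W245.PB (IsIwasawaLog)
open Pool.Agent.W332.OK (logSp)

variable {p : ℕ} [Fact p.Prime] {L : PadicAlgCl p → PadicAlgCl p} (hL : IsIwasawaLog p L)

theorem bak_padic : Bak (PadicAlgCl p) (logSp hL) := by
  intro d b hb hli
  choose α hα hα' hbα using hb
  have h0 : b = fun k => L (α k) := funext hbα
  rw [h0] at hli ⊢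
  have h1 := Pool.Agent.W254.PA.optP_indep hL α hα hα' hli
  exact h1.comp some (Option.some_injective _)

theorem main_padic : MainF (PadicAlgCl p) (logSp hL) := by
  obtain ⟨θ⟩ := exists_theta p
  obtain ⟨h1, h2⟩ := Pool.Agent.P8H7.RS.trf (PadicAlgCl p) ((θ : ℂ_[p] →+* ℂ).comp (ic p)) (logSp hL)
  refine h1 (main_c (obs_mono ?_ (obsProp_padic p Pool.Agent.H301R2.SSE.zeg θ)) (h2 (bak_padic hL)))
  rintro _ ⟨z, ⟨α, hα, halg, rfl⟩, rfl⟩
  rw [mem_Lθ]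
  have : θ.symm (((θ : ℂ_[p] →+* ℂ).comp (ic p)) (L α)) = ic p (L α) := θ.symm_apply_apply _
  change θ.symm (((θ : ℂ_[p] →+* ℂ).comp (ic p)) (L α)) ∈ _
  rw [this]
  exact ic_log_mem hL hα halg

end padic

end Pool.Agent.P8H63.RS
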