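import Pool.Agent.P8H63.RS.Fin
import Pool.Agent.P8H63.RS.Eq
import Pool.Agent.P8H96.RS.Eqa
import Pool.Agent.P8H69.RS.Eqb

set_option autoImplicit false
set_option linter.unusedSectionVars false

/-!
# The equality case: complex and `p`-adic logarithms
-/

namespace Pool.Agent.P8H63.RS

open Module
open Pool.Agent.W332.OK
open Pool.Agent.W254.PA (Hyp LtE logs hyp_padic)

/-- the condition on a kernel vector -/
def Cond {E : Type} [Field E] [CharZero E] {n : ℕ} (ξ : Fin n → E) : Prop :=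
  (finrank (algebraicClosure ℚ E) (Submodule.span (algebraicClosure ℚ E) (Set.range ξ)) - 1) *
      finrank ℚ (Submodule.span ℚ (Set.range ξ)) < n ∨
  ((finrank (algebraicClosure ℚ E) (Submodule.span (algebraicClosure ℚ E) (Set.range ξ)) - 1) *
      finrank ℚ (Submodule.span ℚ (Set.range ξ)) = n ∧
    ¬ finrank (algebraicClosure ℚ E) (Submodule.span (algebraicClosure ℚ E) (Set.range ξ)) ∣
      finrank ℚ (Submodule.span ℚ (Set.range ξ)))

section inst

variable {E : Type} [Field E] [CharZero E] [IsAlgClosed E]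

variable (Λ : Submodule ℚ E) (hB : ∀ (d : ℕ) (b : Fin d → E), (∀ k, b k ∈ Λ) →
  LinearIndependent ℚ b → LinearIndependent (algebraicClosure ℚ E) b)

include hB

theorem final_aux2 {n : ℕ} (V : Submodule (algebraicClosure ℚ E) E) (hΛV : ∀ z ∈ Λ, z ∈ V)
    (hH : Hyp V) (M : Matrix (Fin n) (Fin n) E) (hM : ∀ i j, M i j ∈ Λ)
    (ξ : Fin n → E) (hξ : ξ ≠ 0) (hker : ∀ i, ∑ j, M i j * ξ j = 0) (hn : Cond ξ) :
    ∃ w v : Fin n → ℚ, w ≠ 0 ∧ v ≠ 0 ∧ ∑ i, ∑ j, ((w i : ℚ) : E) * M i j * ((v j : ℚ) : E) = 0 := by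
  by_contra hcon
  have hno : ∀ w v : Fin n → ℚ, w ≠ 0 → v ≠ 0 →
      ∑ i, ∑ j, ((w i : ℚ) : E) * M i j * ((v j : ℚ) : E) ≠ 0 :=
    fun w v hw hv h => hcon ⟨w, v, hw, hv, h⟩
  rcases hn with hn | ⟨heq, hnd⟩
  · exact absurd (Pool.Agent.P8H63.KS.main_ks Λ hB V hΛV hH M hM hno ξ hξ hker) (not_le.2 hn)
  · exact hnd (main_eq Λ hB Pool.Agent.P8H96.RS.eqa Pool.Agent.P8H69.RS.eqb V hΛV hH M hM hno
      ξ hξ hker heq)

theorem final2 {n : ℕ} (V : Submodule (algebraicClosure ℚ E) E) (hΛV : ∀ z ∈ Λ, z ∈ V)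
    (hH : Hyp V) (M : Matrix (Fin n) (Fin n) E) (hM : ∀ i j, M i j ∈ Λ)
    (ξ : Fin n → E) (hξ : ξ ≠ 0) (hker : M.mulVec ξ = 0 ∨ M.vecMul ξ = 0) (hn : Cond ξ) :
    ∃ w v : Fin n → ℚ, w ≠ 0 ∧ v ≠ 0 ∧ ∑ i, ∑ j, ((w i : ℚ) : E) * M i j * ((v j : ℚ) : E) = 0 := by
  rcases hker with h | h
  · exact final_aux2 Λ hB V hΛV hH M hM ξ hξ (fun i => congrFun h i) hn
  · obtain ⟨w, v, hw, hv, h1⟩ := final_aux2 Λ hB V hΛV hH M.transpose (fun i j => hM j i)
      ξ hξ (fun i => by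
        have h2 := congrFun h i
        rw [Matrix.vecMul, dotProduct, Pi.zero_apply] at h2
        rw [← h2]
        refine Finset.sum_congr rfl fun j _ => ?_
        rw [Matrix.transpose_apply, mul_comm]) hn
    refine ⟨v, w, hv, hw, ?_⟩
    rw [← h1, Finset.sum_comm]
    refine Finset.sum_congr rfl fun i _ => Finset.sum_congr rfl fun j _ => ?_
    rw [Matrix.transpose_apply]
    ring

end inst

section complex

open Pool.Agent.H301R2.SSE (QB Lt Lg mem_Lg)

theorem complex_case2 {n : ℕ} (M : Matrix (Fin n) (Fin n) ℂ)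
    (hM : ∀ i j, IsAlgebraic ℚ (Complex.exp (M i j)))
    (ξ : Fin n → ℂ) (hξ : ξ ≠ 0) (hker : M.mulVec ξ = 0 ∨ M.vecMul ξ = 0) (hn : Cond ξ) :
    ∃ w v : Fin n → ℚ, w ≠ 0 ∧ v ≠ 0 ∧ ∑ i, ∑ j, ((w i : ℚ) : ℂ) * M i j * ((v j : ℚ) : ℂ) = 0 := by
  refine final2 Lg ?_ Lt ?_ ?_ M (fun i j => hM i j) ξ hξ hker hn
  · intro d b hb hli
    have h1 := Pool.Agent.W254.HP.opt_indep b (fun k => hb k) hli
    exact h1.comp some (Option.some_injective _)
  · intro z hz
    exact Submodule.subset_span (Or.inr hz)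
  · intro d l x a hx ha hxa hcol
    exact Pool.Agent.W254.HP.hyperplane d l x a hx ha hxa hcol

end complex

section padic

open Pool.Agent.W245.PB (IsIwasawaLog)

variable {p : ℕ} [Fact p.Prime] {L : PadicAlgCl p → PadicAlgCl p} (hL : IsIwasawaLog p L)

include hL in
theorem padic_case2 {n : ℕ} (M : Matrix (Fin n) (Fin n) (PadicAlgCl p))
    (hM : ∀ i j, ∃ α : PadicAlgCl p, α ≠ 0 ∧ IsAlgebraic ℚ α ∧ M i j = L α)
    (ξ : Fin n → PadicAlgCl p) (hξ : ξ ≠ 0) (hker : M.mulVec ξ = 0 ∨ M.vecMul ξ = 0)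
    (hn : Cond ξ) :
    ∃ w v : Fin n → ℚ, w ≠ 0 ∧ v ≠ 0 ∧
      ∑ i, ∑ j, ((w i : ℚ) : PadicAlgCl p) * M i j * ((v j : ℚ) : PadicAlgCl p) = 0 := by
  refine final2 (logSp hL) ?_ (LtE (logs L)) ?_ (hyp_padic hL) M (fun i j => hM i j) ξ hξ hker hn
  · intro d b hb hli
    choose α hα hα' hbα using hb
    have h0 : b = fun k => L (α k) := funext hbα
    rw [h0] at hli ⊢
    have h1 := Pool.Agent.W254.PA.optP_indep hL α hα hα' hli
    exact h1.comp some (Option.some_injective _)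
  · intro z hz
    exact Submodule.subset_span (Or.inr hz)

end padic

section field

theorem alg_le {E : Type} [Field E] [CharZero E] {n : ℕ} (K : Type) [Field K] [NumberField K]
    (ι : K →+* E) (s : ℕ) (a : Fin n → Fin s → K) (x : Fin s → E) (ξ : Fin n → E)
    (hrep : ∀ i, ξ i = ∑ t, ι (a i t) * x t) :
    finrank (algebraicClosure ℚ E)
      (Submodule.span (algebraicClosure ℚ E) (Set.range ξ)) ≤ s := by
  have halg : ∀ k : K, ι k ∈ algebraicClosure ℚ E := fun k => mem_algebraicClosure_iff.2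
    ((Algebra.IsAlgebraic.isAlgebraic (R := ℚ) k).algHom (RingHom.toRatAlgHom ι))
  have hle : Submodule.span (algebraicClosure ℚ E) (Set.range ξ) ≤
      Submodule.span (algebraicClosure ℚ E) (Set.range x) := by
    rw [Submodule.span_le]
    rintro _ ⟨i, rfl⟩
    rw [hrep i]
    refine Submodule.sum_mem _ fun t _ => ?_
    have h2 : ι (a i t) * x t = (⟨ι (a i t), halg _⟩ : algebraicClosure ℚ E) • x t := rfl
    rw [h2]
    exact Submodule.smul_mem _ _ (Submodule.subset_span ⟨t, rfl⟩)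
  have hfd : FiniteDimensional (algebraicClosure ℚ E)
      (Submodule.span (algebraicClosure ℚ E) (Set.range x)) :=
    FiniteDimensional.span_of_finite _ (Set.finite_range x)
  refine (Submodule.finrank_mono hle).trans ?_
  have h2 := finrank_range_le_card (R := algebraicClosure ℚ E) x
  rwa [Set.finrank, Fintype.card_fin] at h2

/-- the condition for coordinates in `K x_1 + ... + K x_s` -/
theorem cond_field {E : Type} [Field E] [CharZero E] {n : ℕ} (K : Type) [Field K] [NumberField K]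
    (ι : K →+* E) (s : ℕ) (a : Fin n → Fin s → K) (x : Fin s → E) (ξ : Fin n → E)
    (hrep : ∀ i, ξ i = ∑ t, ι (a i t) * x t)
    (hn : s * (s - 1) * finrank ℚ K < n ∨ (s = 2 ∧ Odd n)) : Cond ξ := by
  rcases hn with hn | ⟨rfl, hn⟩
  · exact Or.inl (Pool.Agent.P8H63.KS.dim_field K ι s a x ξ hrep hn)
  · have h1 := alg_le K ι 2 a x ξ hrep
    have h2 : finrank ℚ (Submodule.span ℚ (Set.range ξ)) ≤ n := by
      have h3 := finrank_range_le_card (R := ℚ) ξ
      rwa [Set.finrank, Fintype.card_fin] at h3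
    have h0 : 0 < n := hn.pos
    unfold Cond
    obtain ⟨s, hs⟩ : ∃ s, s = finrank (algebraicClosure ℚ E)
      (Submodule.span (algebraicClosure ℚ E) (Set.range ξ)) := ⟨_, rfl⟩
    obtain ⟨m, hm⟩ : ∃ m, m = finrank ℚ (Submodule.span ℚ (Set.range ξ)) := ⟨_, rfl⟩
    rw [← hs] at h1 ⊢
    rw [← hm] at h2 ⊢
    rcases Nat.lt_or_ge s 2 with h3 | h3
    · left
      have h4 : s - 1 = 0 := by omega
      rw [h4, zero_mul]
      exact h0
    · obtain rfl : s = 2 := by omega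
      rcases Nat.lt_or_ge m n with h4 | h4
      · left
        rw [show 2 - 1 = 1 from rfl, one_mul]
        exact h4
      · obtain rfl : m = n := by omega
        right
        refine ⟨by rw [show 2 - 1 = 1 from rfl, one_mul], ?_⟩
        rw [← even_iff_two_dvd]
        exact Nat.not_even_iff_odd.2 hn

end field

end Pool.Agent.P8H63.RS
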