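import Pool.Agent.W332.OK.Abs

set_option autoImplicit false
set_option linter.unusedSectionVars false

/-!
# Project RS: ranks of matrices of logarithms on algebraic subspaces

THEOREM. Let `M` be an `n × n` matrix of (complex or `p`-adic) logarithms of algebraic numbers, and `A` an
`n × s` matrix of algebraic numbers of rank `s`, whose rows span a rational space of dimension `m`. Let
`ρ = rank (M A)`. If `ρ m < (s - ρ) n`, then there are nonzero rational `w`, `v` with `wᵗ M v = 0`.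
(`s = m = n`, `A = 1` is the theorem of Waldschmidt and Masser.)

All packages need only this file (it imports `Pool.Agent.W332.OK.Abs`, which imports Mathlib).
-/

namespace Pool.Agent.P8H63.RS

open Module
open Pool.Agent.W332.OK (tw NN)

/-- the form with values modulo `κ P` -/
noncomputable def bP {κ : Type} [Field κ] {n : ℕ} {E : Type} [AddCommGroup E] [Module κ E]
    (β : (Fin n → κ) →ₗ[κ] (Fin n → κ) →ₗ[κ] E) (P : E) :
    (Fin n → κ) →ₗ[κ] (Fin n → κ) →ₗ[κ] (E ⧸ Submodule.span κ {P}) :=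
  β.compr₂ (Submodule.mkQ (Submodule.span κ {P}))

/-- the zeros modulo `P` are compatible with the Galois group -/
def Gal {κ : Type} [Field κ] [Algebra ℚ κ] {n : ℕ} {E : Type} [AddCommGroup E] [Module κ E]
    (β : (Fin n → κ) →ₗ[κ] (Fin n → κ) →ₗ[κ] E) (P : E) : Prop :=
  ∀ (σ : κ ≃ₐ[ℚ] κ) (w v : Fin n → κ) (c : κ), β w v = c • P →
    β (fun i => σ (w i)) (fun i => σ (v i)) = σ c • P

/-- no rational zeros -/
def NoZero {κ : Type} [Field κ] [Algebra ℚ κ] {n : ℕ} {E : Type} [AddCommGroup E] [Module κ E]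
    (β : (Fin n → κ) →ₗ[κ] (Fin n → κ) →ₗ[κ] E) : Prop :=
  ∀ w v : Fin n → ℚ, w ≠ 0 → v ≠ 0 →
    β (fun i => algebraMap ℚ κ (w i)) (fun i => algebraMap ℚ κ (v i)) ≠ 0

/-- package SLO (60 lines; adaptation of `Pool.Agent.P8H63.KS.Slope`, file
`Pool/Agent/P8H63/KS/Slope.lean`, by helper63 himself). -/
def S_SLO : Prop :=
  ∀ (κ : Type) [Field κ] [Algebra ℚ κ] [IsGalois ℚ κ] (n : ℕ) (E : Type) [AddCommGroup E]
    [Module κ E] (β : (Fin n → κ) →ₗ[κ] (Fin n → κ) →ₗ[κ] E),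
  (∀ (σ : κ ≃ₐ[ℚ] κ) (w v : Fin n → κ), β w v = 0 →
    β (fun i => σ (w i)) (fun i => σ (v i)) = 0) →
  ∀ A U : Submodule κ (Fin n → κ), U ≤ A → U ≠ ⊥ →
  ∃ Z : Submodule κ (Fin n → κ), Z ≠ ⊥ ∧ Z ≤ (⨆ σ : κ ≃ₐ[ℚ] κ, tw σ A) ∧
    (∀ σ : κ ≃ₐ[ℚ] κ, ∀ x ∈ Z, (fun i => σ (x i)) ∈ Z) ∧
    (n - finrank κ (NN β Z)) * finrank κ U ≤ (n - finrank κ (NN β U)) * finrank κ Z

/-- package STB (100 lines). `NN β' Z = {w | ∀ x ∈ Z, β' w x = 0}` with `β' = bP β P`, so
`w ∈ NN β' Z ↔ ∀ x ∈ Z, ∃ c, β w x = c • P` (`Submodule.mkQ_apply`, `Submodule.Quotient.mk_eq_zero`,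
`Submodule.mem_span_singleton`). Proof. `N = NN β' Z` is Galois stable (by `Gal`, as in `stab_full` of
`W332/OK/Abs.lean`). (1) If `w`, `v` are nonzero rational vectors and `β w v = c • P` then `P ≠ 0` and `c` is
rational and nonzero: by `Gal`, `β w v = σ c • P` for all `σ`, so `σ c = c` if `P ≠ 0`
(`InfiniteGalois.mem_bot_iff_fixed`, see `exists_rat` in `Abs.lean`). (2) A stable subspace `X` of dimension
at least two contains two rational vectors independent over `ℚ`: `exists_rat` gives `v ≠ 0`, say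
`v i0 ≠ 0`; the subspace of the `x ∈ X` with `x i0 = 0` is stable, and not zero, and `exists_rat`
gives `v' ≠ 0` with `v' i0 = 0`. (3) If `2 ≤ finrank Z` and `N ≠ ⊥`: take `w ∈ N` rational, `v`, `v'` as in (2),
`β w v = c • P`, `β w v' = c' • P`, then `c' v - c v'` is rational, nonzero and `β w (c' v - c v') = 0`, against
`NoZero`. (4) If `2 ≤ finrank N`: the same with the two sides exchanged. -/
def S_STB : Prop :=
  ∀ (κ : Type) [Field κ] [Algebra ℚ κ] [IsGalois ℚ κ] (n : ℕ) (E : Type) [AddCommGroup E]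
    [Module κ E] (β : (Fin n → κ) →ₗ[κ] (Fin n → κ) →ₗ[κ] E) (P : E), Gal β P → NoZero β →
  ∀ Z : Submodule κ (Fin n → κ), Z ≠ ⊥ → (∀ σ : κ ≃ₐ[ℚ] κ, ∀ x ∈ Z, (fun i => σ (x i)) ∈ Z) →
    finrank κ (NN (bP β P) Z) ≤ 1 ∧ (2 ≤ finrank κ Z → NN (bP β P) Z = ⊥)

/-- package ABS : `S_SLO → S_STB → S_ABS` (60 lines). Apply `S_SLO` to `bP β P` (the zeros of `bP β P`
are stable by `Gal`) and `A = R`; `Z ≤ ⨆ tw σ R ≤ R`, so `1 ≤ finrank Z ≤ m`. If `2 ≤ finrank Z` the orthogonal is zero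
and the first alternative holds; if `finrank Z = 1` then `n - 1 ≤ n - finrank (NN _ Z)`, the second. -/
def S_ABS : Prop :=
  ∀ (κ : Type) [Field κ] [Algebra ℚ κ] [IsGalois ℚ κ] (n : ℕ) (E : Type) [AddCommGroup E]
    [Module κ E] (β : (Fin n → κ) →ₗ[κ] (Fin n → κ) →ₗ[κ] E) (P : E), Gal β P → NoZero β →
  ∀ (R U : Submodule κ (Fin n → κ)) (m : ℕ), U ≤ R → U ≠ ⊥ →
    (∀ σ : κ ≃ₐ[ℚ] κ, tw σ R ≤ R) → finrank κ R ≤ m →
    n * finrank κ U ≤ (n - finrank κ (NN (bP β P) U)) * m ∨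
      (n - 1) * finrank κ U ≤ n - finrank κ (NN (bP β P) U)

/-- the linear subgroup theorem over number fields (helper63) -/
def LSTK (𝓛 : Submodule ℚ ℂ) (P : ℂ) : Prop :=
  ∀ (K : IntermediateField ℚ ℂ) [FiniteDimensional ℚ K] (d l ρ : ℕ) (a : Fin d → Fin l → ℂ)
    (X : Fin d → Fin ρ → ℂ) (Y : Fin ρ → Fin l → ℂ), ρ < d →
    (∀ i j, a i j ∈ Submodule.span K (𝓛 : Set ℂ)) → (∀ i j, a i j = ∑ τ, X i τ * Y τ j) →
    ∃ (N : Submodule K (Fin d → K)) (S : Submodule K (Fin l → K)), N ≠ ⊥ ∧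
      (l - finrank K S) * (d - ρ) ≤ finrank K N * ρ ∧
      ∀ α ∈ N, ∀ s ∈ S, ∃ c : K, ∑ i, ∑ j, (α i : ℂ) * (s j : ℂ) * a i j = (c : ℂ) * P

/-- the linear subgroup theorem for a space spanned by algebraic vectors -/
def LSTA (𝓛 : Submodule ℚ ℂ) (P : ℂ) : Prop :=
  ∀ (n s ρ : ℕ) (M : Matrix (Fin n) (Fin n) ℂ), (∀ i j, M i j ∈ 𝓛) →
    ∀ (e : Fin s → Fin n → algebraicClosure ℚ ℂ), LinearIndependent (algebraicClosure ℚ ℂ) e →
    ρ < s → ∀ (X : Fin s → Fin ρ → ℂ) (Y : Fin ρ → Fin n → ℂ),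
    (∀ t i, ∑ j, M i j * (e t j : ℂ) = ∑ τ, X t τ * Y τ i) →
    ∃ N S : Submodule (algebraicClosure ℚ ℂ) (Fin n → algebraicClosure ℚ ℂ),
      N ≤ Submodule.span (algebraicClosure ℚ ℂ) (Set.range e) ∧ N ≠ ⊥ ∧
      (n - finrank (algebraicClosure ℚ ℂ) S) * (s - ρ) ≤ finrank (algebraicClosure ℚ ℂ) N * ρ ∧
      ∀ w ∈ S, ∀ x ∈ N, ∃ c : algebraicClosure ℚ ℂ,
        ∑ i, ∑ j, (w i : ℂ) * M i j * (x j : ℂ) = (c : ℂ) * P

/-- package LKA (120 lines). Let `K` be generated by the numbers `e t j` (finite over `ℚ`: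
`IntermediateField.finiteDimensional_adjoin`), apply `LSTK` to `a t i = ∑ j, M i j * e t j`, `d = s`,
`l = n`. Take for `N` the span of the vectors `∑ t, α t • e t`, `α` in the `N` over `K` (coefficients in `K`,
seen in the algebraic closure), for `S` the span of the vectors of the `S` over `K`. The dimensions do not change:
linear independence over `K` of vectors with coordinates in `K` implies independence over the algebraic closure
(pick bases; e.g. `LinearIndependent` of vectors of `K ^ n` after extension of scalars, or by an invertible minor,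
or by choosing a `K`-linear retraction of the algebraic closure to `K` after scaling a relation), only `≥` for `S` and `N` is
needed. The last property is bilinear in `(w, x)`, so it is enough to have it for the generators. -/
def S_LKA : Prop := ∀ (𝓛 : Submodule ℚ ℂ) (P : ℂ), LSTK 𝓛 P → LSTA 𝓛 P

/-- Baker's theorem for the space `𝓛` -/
def Bak (E : Type) [Field E] [CharZero E] (𝓛 : Submodule ℚ E) : Prop :=
  ∀ (d : ℕ) (b : Fin d → E), (∀ k, b k ∈ 𝓛) → LinearIndependent ℚ b →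
    LinearIndependent (algebraicClosure ℚ E) b

/-- rational zeros -/
def HasZero {E : Type} [Field E] [CharZero E] {n : ℕ} (M : Matrix (Fin n) (Fin n) E) : Prop :=
  ∃ w v : Fin n → ℚ, w ≠ 0 ∧ v ≠ 0 ∧ ∑ i, ∑ j, ((w i : ℚ) : E) * M i j * ((v j : ℚ) : E) = 0

/-- the theorem in terms of a space `R` defined over `ℚ` -/
def MainE (𝓛 : Submodule ℚ ℂ) : Prop :=
  ∀ (n s ρ m : ℕ) (M : Matrix (Fin n) (Fin n) ℂ), (∀ i j, M i j ∈ 𝓛) →
    ∀ (e : Fin s → Fin n → algebraicClosure ℚ ℂ), LinearIndependent (algebraicClosure ℚ ℂ) e →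
    ρ < s → ∀ (X : Fin s → Fin ρ → ℂ) (Y : Fin ρ → Fin n → ℂ),
    (∀ t i, ∑ j, M i j * (e t j : ℂ) = ∑ τ, X t τ * Y τ i) →
    ∀ R : Submodule (algebraicClosure ℚ ℂ) (Fin n → algebraicClosure ℚ ℂ), (∀ t, e t ∈ R) →
    (∀ σ : algebraicClosure ℚ ℂ ≃ₐ[ℚ] algebraicClosure ℚ ℂ, tw σ R ≤ R) →
    finrank (algebraicClosure ℚ ℂ) R ≤ m → ρ * m < (s - ρ) * n → HasZero M

/-- the theorem in terms of matrices -/
def MainF (E : Type) [Field E] [CharZero E] (𝓛 : Submodule ℚ E) : Prop :=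
  ∀ (n s : ℕ) (M : Matrix (Fin n) (Fin n) E), (∀ i j, M i j ∈ 𝓛) →
    ∀ A : Matrix (Fin n) (Fin s) E, (∀ i j, IsAlgebraic ℚ (A i j)) → A.rank = s →
    (M * A).rank * finrank ℚ (Submodule.span ℚ (Set.range (fun i => A i))) <
      (s - (M * A).rank) * n → HasZero M

/-- package MAT (120 lines). Put `ρ = (M * A).rank`; the inequality gives `ρ < s`. Let `e t i = A i t`, seen in the
algebraic closure (`mem_algebraicClosure_iff`), independent because `A.rank = s` (columns independent over `ℂ`,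
`LinearIndependent.restrict_scalars`-like or directly). `X`, `Y`: a rank factorisation of `M * A` (coordinates of the columns
in a basis of the column space, dimension `ρ`). `R`: let `q` be a `ℚ`-basis of the span of the rows `A i` in
`E ^ s`, `m` elements, `A i = ∑ k, c i k • q k` with rational `c`; `R` is the span of the `m` rational vectors
`i ↦ c i k`; compare `exists_rep` in `Pool/Agent/P8H63/KS/Inst2.lean` (the same with one column; copy the proof of
`tw σ R ≤ R` and of the dimension). -/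
def S_MAT : Prop := ∀ 𝓛 : Submodule ℚ ℂ, MainE 𝓛 → MainF ℂ 𝓛

/-- package TRF (100 lines): transfer along a field embedding `Θ`. `𝓛' = 𝓛.map Θ`. Apply the theorem over `ℂ` to the
matrices `M.map Θ`, `A.map Θ`. `Matrix.rank` is invariant (if not in Mathlib: columns, linear independence over `E` of
vectors of `E ^ n` implies independence over `ℂ`; or minors), the rational span of the rows has the same
dimension (`Θ` injective, rational linear). The second part is Baker's theorem for `𝓛'`: algebraic numbers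
of `ℂ` are images of algebraic numbers of `E`, see `exists_preimage` in
`Pool/Agent/W254/PA/Transfer.lean` (copy it). -/
def S_TRF : Prop :=
  ∀ (E : Type) [Field E] [CharZero E] [IsAlgClosed E] (Θ : E →+* ℂ) (𝓛 : Submodule ℚ E),
    (MainF ℂ (𝓛.map (RingHom.toRatAlgHom Θ : E →ₐ[ℚ] ℂ).toLinearMap) → MainF E 𝓛) ∧
    (Bak E 𝓛 → Bak ℂ (𝓛.map (RingHom.toRatAlgHom Θ : E →ₐ[ℚ] ℂ).toLinearMap))

/-- package MAI : `S_ABS → S_MAI` (150 lines). Suppose there is no rational zero. `β w v = ∑ i, ∑ j, w i * M i j * v j`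
(copy `bil`, `bil_apply`, `sum_equiv`, `gal_inst` from `Pool/Agent/W332/OK/Inst.lean`, they need only `Bak`, not the
imports). `Gal β P`: `sum_equiv` for the index type `Option (Fin n × Fin n)` and the family `m none = P`,
`m (some (i, j)) = M i j` with coefficients `-c` and `w i * v j`. `NoZero β` is the assumption. Take `N`, `S` from `LSTA`;
`S ≤ NN (bP β P) N`, so with `r = n - finrank (NN (bP β P) N)` we have `r * (s - ρ) ≤ finrank N * ρ`, and `N ≤ R`. Apply `S_ABS` with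
`U = N`. First alternative: `n (s - ρ) ≤ ρ m`, contradiction. Second: `(n - 1) (s - ρ) ≤ ρ`; also `s ≤ m`. If
`m ≥ 2` and `n ≥ 2` then `n (s - ρ) ≤ 2 (n - 1) (s - ρ) ≤ m ρ`, contradiction; if `m ≤ 1` then `s = 1`,
`ρ = 0`, so `n ≤ 1`; `n = 0` contradicts the inequality; `n = 1`: then `s ≤ 1`, `s = 1`, `ρ = 0`, so `M e = 0` and `M = 0`, a
rational zero. -/
def S_MAI : Prop := ∀ (𝓛 : Submodule ℚ ℂ) (P : ℂ), P ∈ 𝓛 → Bak ℂ 𝓛 → LSTA 𝓛 P → MainE 𝓛

end Pool.Agent.P8H63.RS
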