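import Pool.Agent.W254.PA.HypC
import Pool.Agent.P8H63.RS.Stm

set_option autoImplicit false

/-!
# The linear subgroup theorem over a number field, for matrices of any rank
-/

namespace Pool.Agent.P8H63.RS

open Module Finset Pool.Agent.H301R2.ZG Pool.Agent.W254.HP Pool.Agent.W254.PA
open Pool.Agent.H301R2.SSE (dg bs om om_alg om_ne cc mul_om ortho_le int_basis
  finrank_int_le_rat finrank_int_le_c tau tau_coe tau_eq_zero)

section points

variable (K : IntermediateField ℚ ℂ) [FiniteDimensional ℚ K] (𝓛 : Submodule ℚ ℂ)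

/-- **Part A**: application of the obstruction theorem to a matrix of rank at most `r`. -/
theorem partAR (hO : ObsProp 𝓛) (d l r : ℕ) (a : Fin d → Fin l → ℂ)
    (β : Fin d → Fin l → K) (u : Fin d → Fin l → Fin (dg K) → ℂ)
    (hu : ∀ i j h, u i j h ∈ 𝓛) (ha : ∀ i j, a i j = (β i j : ℂ) + ∑ h, om K h * u i j h)
    (X : Fin d → Fin r → ℂ) (Y : Fin r → Fin l → ℂ) (hXY : ∀ i j, a i j = ∑ τ, X i τ * Y τ j)
    (κ μ σ : ℕ) (hκ : μ + σ = κ)
    (hcount : (κ + 1) * (r + d * dg K) + 1 ≤ d * κ + (d * dg K) * μ)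
    (hσ : 0 < σ) :
    ∃ (N : Submodule ℂ (Fin d → ℂ)) (Rm : AddSubgroup (Fin (d * dg K) → ℤ))
      (G0 : AddSubgroup (Fin (l * dg K) → ℤ)), 1 ≤ finrank ℂ N ∧
      (finrank ℤ Rm + (l * dg K - finrank ℤ G0)) * σ ≤ finrank ℂ N * κ ∧
      (∀ t ∈ rperp Rm, ∀ α ∈ N, ∑ i, α i * ((kk K t i : K) : ℂ) = 0) ∧
      ∀ s ∈ G0, (∀ α ∈ N, ∑ i, α i * ∑ j, (kk K (fun p => (s p : ℚ)) j : ℂ) * (β i j : ℂ) = 0) ∧
        ∀ m ∈ Rm, ∃ n : ℤ, ∑ q, (m q : ℂ) * ∑ p, um K u (f1 q) (f2 q) p * (s p : ℂ) =
          n * (2 * Real.pi * Complex.I) := by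
  classical
  have hom0 : om K 0 ≠ 0 := om_ne K 0
  set A : Finset (Fin (d * dg K)) := Finset.univ.filter (fun d => f2 d = 0) with hA
  have hAcard : A.card = d := by
    have : A = (Finset.univ : Finset (Fin d)).image (fun i => pr i (0 : Fin (dg K))) := by
      ext d
      simp only [hA, Finset.mem_filter, Finset.mem_univ, true_and, Finset.mem_image]
      constructor
      · intro h; exact ⟨f1 d, by rw [← h, pr_f]⟩
      · rintro ⟨i, rfl⟩; exact f2_pr i 0
    rw [this, Finset.card_image_of_injective]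
    · simp
    · intro i i' h
      have := congrArg f1 h
      simpa using this
  set ω : Fin (d * dg K) → Fin (l * dg K) → ℂ := fun d p =>
    if f2 d = 0 then av K β (f1 d) p else um K u (f1 d) (f2 d) p with hω
  set uu : Fin (d * dg K) → Fin (l * dg K) → ℂ := fun q p => um K u (f1 q) (f2 q) p with huu
  obtain ⟨Af, Rm, W0, G0, hAfA, hne0, hW0, hG0, hineq⟩ :=
    hO (d * dg K) (d * dg K)
      (l * dg K) r A (gam (om K)) ω uu
      (fun ρ q => if f2 q = 0 then X (f1 q) ρ / om K 0 else 0)
      (fun ρ p => om K (f2 p) * Y ρ (f1 p))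
      (gam_alg (om K) (om_alg K))
      (by
        intro d hd p
        have hd' : f2 d = 0 := (Finset.mem_filter.mp hd).2
        simp only [hω, if_pos hd']
        refine (om_alg K _).mul ?_
        exact (Algebra.IsAlgebraic.isAlgebraic (R := ℚ) (β (f1 d) (f1 p))).algebraMap (A := ℂ))
      (fun q p => um_memP K 𝓛 u hu _ _ p)
      (by
        intro q p
        have h1 := sum_gam (om K) hom0 (fun i => av K β i p) (fun i h => um K u i h p)
          (fun i => om K (f2 p) * a i (f1 p)) (fun i => factA K a β u ha i p) q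
        simp only [huu, hω]
        rw [h1]
        congr 1
        by_cases h2 : f2 q = 0
        · simp only [if_pos h2]
          rw [hXY, Finset.mul_sum, Finset.sum_div]
          refine Finset.sum_congr rfl fun τ _ => ?_
          ring
        · simp only [if_neg h2, zero_mul, Finset.sum_const_zero])
      κ μ σ hκ (by rw [hAcard]; exact hcount)
  have hAf : ∀ a ∈ Af, ∀ d, f2 d ≠ 0 → a d = 0 := by
    intro a ha d hd
    exact hAfA a ha d (by simp [hA, hd])
  set wc := d * dg K - finrank ℂ W0 with hwc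
  set bb := l * dg K - finrank ℤ G0 with hbb
  set d0 := finrank ℂ Af with hd0
  set d1 := finrank ℤ Rm with hd1
  have hle : wc * κ + bb * σ ≤ d0 * κ + d1 * μ := by
    rcases hineq with h | h
    · exact h.le
    · exact h.1.le
  have hrn := LinearMap.finrank_range_add_finrank_ker (Psi (om K) Af Rm)
  have hprod : finrank ℂ (Af × cSpan Rm) = d0 + finrank ℂ (cSpan Rm) := Module.finrank_prod
  rw [hprod] at hrn
  have hW := Psi_W0 (om K) Af Rm W0 hW0
  have hdc : d1 ≤ finrank ℂ (cSpan Rm) := finrank_int_le_c Rm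
  let κ0 : (Af × cSpan Rm) →ₗ[ℂ] (Fin d → ℂ) :=
    { toFun := fun v i => (v.2 : Fin (d * dg K) → ℂ) (pr i 0) / om K 0
      map_add' := by intro v v'; funext i; simp [add_div]
      map_smul' := by intro c v; funext i; simp [mul_div_assoc] }
  have hkinj : ∀ v ∈ LinearMap.ker (Psi (om K) Af Rm), κ0 v = 0 → v = 0 := by
    intro v hv hv0
    obtain ⟨h1, h2⟩ := Psi_ker (om K) Af Rm hom0 hAf (LinearMap.mem_ker.mp hv)
    have h3 : ∀ i, (v.2 : Fin (d * dg K) → ℂ) (pr i 0) / om K 0 = 0 :=
      fun i => congrFun hv0 i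
    apply Prod.ext
    · apply Subtype.ext
      funext d
      rw [← pr_f d]
      by_cases hd : f2 d = 0
      · rw [hd, h1, h3]; rfl
      · rw [hAf _ v.1.2 _ (by rw [f2_pr]; exact hd)]; rfl
    · apply Subtype.ext
      funext d
      rw [← pr_f d, h2, h3, zero_mul]; rfl
  set N : Submodule ℂ (Fin d → ℂ) := (LinearMap.ker (Psi (om K) Af Rm)).map κ0 with hN
  have hNc : finrank ℂ (LinearMap.ker (Psi (om K) Af Rm)) = finrank ℂ N := by
    let f : LinearMap.ker (Psi (om K) Af Rm) →ₗ[ℂ] N :=
      { toFun := fun v => ⟨κ0 v, Submodule.mem_map_of_mem v.2⟩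
        map_add' := by intro a b; apply Subtype.ext; simp
        map_smul' := by intro a b; apply Subtype.ext; simp }
    refine le_antisymm ?_ ?_
    · apply LinearMap.finrank_le_finrank_of_injective (f := f)
      intro v v' hv
      have h1 : κ0 v = κ0 v' := congrArg Subtype.val hv
      have h2 := hkinj ((v : Af × cSpan Rm) - (v' : Af × cSpan Rm))
        (Submodule.sub_mem _ v.2 v'.2) (by rw [map_sub, h1, sub_self])
      exact Subtype.ext (sub_eq_zero.mp h2)
    · exact Submodule.finrank_map_le _ _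
  rw [hNc] at hrn
  have hkey : d0 + d1 ≤ wc + finrank ℂ N := by omega
  have hfin : (d1 + bb) * σ ≤ finrank ℂ N * κ := by
    have h1 : (d0 + d1) * κ ≤ (wc + finrank ℂ N) * κ := Nat.mul_le_mul_right _ hkey
    have h2 : d1 * κ = d1 * μ + d1 * σ := by rw [← hκ]; ring
    nlinarith
  refine ⟨N, Rm, G0, ?_, hfin, ?_, ?_⟩
  · -- the kernel is not zero
    by_contra hcon
    have h0 : finrank ℂ N = 0 := by omega
    rw [h0, zero_mul] at hfin
    have h1 : d1 + bb = 0 := by
      rcases Nat.mul_eq_zero.mp (Nat.le_zero.mp hfin) with h | h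
      · exact h
      · omega
    have hd1' : d1 = 0 := by omega
    have hbb' : bb = 0 := by omega
    have hd0' : d0 = 0 := by
      rcases hineq with h | ⟨h, h', h''⟩
      · exfalso
        have h2 : wc * κ + bb * σ < d0 * κ + d1 * μ := h
        rw [hd1', hbb', zero_mul, zero_mul, add_zero, add_zero] at h2
        have h3 : wc < d0 := lt_of_mul_lt_mul_right h2 (Nat.zero_le _)
        omega
      · have : wc = 0 := h'
        omega
    apply hne0
    constructor
    · exact Submodule.finrank_eq_zero.mp hd0'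
    · obtain ⟨ρ, hρ1, hρ2, hρ3⟩ := int_basis Rm
      rw [eq_bot_iff]
      intro m hm
      obtain ⟨c, hc⟩ := hρ2 m hm
      haveI : IsEmpty (Fin (finrank ℤ Rm)) := by
        have : finrank ℤ Rm = 0 := hd1'
        rw [this]; infer_instance
      rw [hc]
      simp
  · -- rational orthogonality
    intro t ht α hα
    obtain ⟨v, hv, rfl⟩ := hα
    obtain ⟨h1, h2⟩ := Psi_ker (om K) Af Rm hom0 hAf (LinearMap.mem_ker.mp hv)
    have h3 := cSpan_zero Rm (f := fun q => (t q : ℂ)) (by
      intro m hm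
      have := congrArg (fun q : ℚ => (q : ℂ)) (ht m hm)
      push_cast at this
      rw [← this]
      apply Finset.sum_congr rfl; intro q _; ring) _ v.2.2
    rw [sum_pr] at h3
    rw [← h3]
    apply Finset.sum_congr rfl
    intro i _
    unfold kk
    rw [tau_coe, Finset.mul_sum]
    apply Finset.sum_congr rfl
    intro h _
    rw [h2 i h]
    change (v.2 : Fin (d * dg K) → ℂ) (pr i 0) / om K 0 * ((t (pr i h) : ℂ) * om K h) = _
    ring
  · intro s hs
    constructor
    · intro α hα
      obtain ⟨v, hv, rfl⟩ := hα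
      obtain ⟨h1, h2⟩ := Psi_ker (om K) Af Rm hom0 hAf (LinearMap.mem_ker.mp hv)
      have h3 := (hG0 s hs).1 _ v.1.2
      rw [sum_pr] at h3
      rw [← h3]
      apply Finset.sum_congr rfl
      intro i _
      have h5 : ∑ h : Fin (dg K), (v.1 : Fin (d * dg K) → ℂ) (pr i h) *
          ∑ p, ω (pr i h) p * (s p : ℂ) = (v.1 : Fin (d * dg K) → ℂ) (pr i 0) *
          ∑ p, ω (pr i 0) p * (s p : ℂ) := by
        apply Finset.sum_eq_single 0
        · intro h _ hh
          rw [hAf _ v.1.2 _ (by rw [f2_pr]; exact hh), zero_mul]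
        · intro h; exact absurd (Finset.mem_univ _) h
      rw [h5, h1]
      simp only [hω, f1_pr, f2_pr, if_true]
      have h4 := sum_kk K (fun p => (s p : ℚ)) (fun j => (β i j : ℂ))
      rw [← h4]
      change (v.2 : Fin (d * dg K) → ℂ) (pr i 0) / om K 0 * _ = _
      congr 1
    · intro m hm
      obtain ⟨n, hn⟩ := (hG0 s hs).2 m hm
      refine ⟨n, ?_⟩
      rw [← hn]
      apply Finset.sum_congr rfl
      intro q _
      rw [Finset.mul_sum]
      apply Finset.sum_congr rfl
      intro p _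
      simp only [huu]
      ring

end points

end Pool.Agent.P8H63.RS
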