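import Pool.Agent.P8H63.RS.LstA

set_option autoImplicit false

/-!
# The linear subgroup theorem over a number field, for matrices of any rank: conclusion
-/

namespace Pool.Agent.P8H63.RS

open Module Finset Pool.Agent.H301R2.ZG Pool.Agent.W254.HP Pool.Agent.W254.PA
open Pool.Agent.H301R2.SSE (dg bs om om_alg om_ne cc mul_om ortho_le int_basis
  finrank_int_le_rat finrank_int_le_c tau tau_coe tau_eq_zero)

open Classical in
/-- the period: `2 π i` if it is in `𝓛`, otherwise zero -/
noncomputable def P0 (𝓛 : Submodule ℚ ℂ) : ℂ :=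
  if 2 * Real.pi * Complex.I ∈ 𝓛 then 2 * Real.pi * Complex.I else 0

theorem P0_mem (𝓛 : Submodule ℚ ℂ) : P0 𝓛 ∈ 𝓛 := by
  unfold P0
  split_ifs with h
  · exact h
  · exact 𝓛.zero_mem

theorem P0_spec {𝓛 : Submodule ℚ ℂ} {z : ℂ} (hz : z ∈ 𝓛)
    (h : ∃ n : ℤ, z = n * (2 * Real.pi * Complex.I)) : ∃ n : ℤ, z = n * P0 𝓛 := by
  obtain ⟨n, hn⟩ := h
  unfold P0
  split_ifs with hP
  · exact ⟨n, hn⟩
  · by_cases h0 : n = 0
    · exact ⟨0, by rw [hn, h0]; simp⟩
    · exfalso
      apply hP
      have h1 : (2 * Real.pi * Complex.I : ℂ) = ((n : ℚ)⁻¹ : ℚ) • z := by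
        rw [hn, Rat.smul_def]
        have h2 : (n : ℂ) ≠ 0 := by exact_mod_cast h0
        push_cast
        rw [← mul_assoc, inv_mul_cancel₀ h2, one_mul]
      rw [h1]
      exact 𝓛.smul_mem _ hz

section points

variable (K : IntermediateField ℚ ℂ) [FiniteDimensional ℚ K] (𝓛 : Submodule ℚ ℂ)

omit [FiniteDimensional ℚ K] in
/-- the space of the `s` for which the value is in `K P` -/
def valSub {d l : ℕ} (a : Fin d → Fin l → ℂ) (α : Fin d → K) (P : ℂ) : Submodule K (Fin l → K) where
  carrier := {s | ∃ c : K, ∑ i, ∑ j, (α i : ℂ) * (s j : ℂ) * a i j = (c : ℂ) * P}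
  zero_mem' := ⟨0, by simp⟩
  add_mem' := by
    rintro s s' ⟨c, hc⟩ ⟨c', hc'⟩
    refine ⟨c + c', ?_⟩
    push_cast
    rw [add_mul, ← hc, ← hc']
    simp only [← Finset.sum_add_distrib]
    refine Finset.sum_congr rfl fun i _ => Finset.sum_congr rfl fun j _ => ?_
    rw [Pi.add_apply]
    push_cast
    ring
  smul_mem' := by
    rintro t s ⟨c, hc⟩
    refine ⟨t * c, ?_⟩
    push_cast
    rw [mul_assoc, ← hc]
    simp only [Finset.mul_sum]
    refine Finset.sum_congr rfl fun i _ => Finset.sum_congr rfl fun j _ => ?_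
    rw [Pi.smul_apply, smul_eq_mul]
    push_cast
    ring

theorem lst_core (hO : ObsProp 𝓛) (d l r : ℕ) (a : Fin d → Fin l → ℂ)
    (u : Fin d → Fin l → Fin (dg K) → ℂ)
    (hu : ∀ i j h, u i j h ∈ 𝓛) (ha : ∀ i j, a i j = ∑ h, om K h * u i j h)
    (X : Fin d → Fin r → ℂ) (Y : Fin r → Fin l → ℂ) (hXY : ∀ i j, a i j = ∑ τ, X i τ * Y τ j)
    (κ μ σ : ℕ) (hκ : μ + σ = κ)
    (hcount : (κ + 1) * (r + d * dg K) + 1 ≤ d * κ + (d * dg K) * μ) (hσ : 0 < σ) :
    ∃ (N : Submodule K (Fin d → K)) (S : Submodule K (Fin l → K)), 1 ≤ finrank K N ∧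
      finrank K N ≤ d ∧
      (finrank K N + (l - finrank K S)) * dg K * σ ≤ finrank K N * κ ∧
      ∀ α ∈ N, ∀ s ∈ S, ∃ c : K, ∑ i, ∑ j, (α i : ℂ) * (s j : ℂ) * a i j = (c : ℂ) * P0 𝓛 := by
  classical
  have ha' : ∀ i j, a i j = (((fun _ _ => 0 : Fin d → Fin l → K) i j : K) : ℂ) +
      ∑ h, om K h * u i j h := by
    intro i j
    rw [ha i j]
    simp
  obtain ⟨N0, Rm, G0, hN1, hfin, hT, hG⟩ := partAR K 𝓛 hO d l r a (fun _ _ => 0) u hu ha' X Y hXY
    κ μ σ hκ hcount hσ
  -- the rational subspace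
  let F : Submodule K (Fin d → K) :=
    { carrier := {τ | ∀ α ∈ N0, ∑ i, α i * (τ i : ℂ) = 0}
      zero_mem' := by intro α _; simp
      add_mem' := by
        intro τ τ' h h' α hα
        have h1 := h α hα
        have h2 := h' α hα
        simp only [Pi.add_apply]
        push_cast
        simp only [mul_add, Finset.sum_add_distrib, h1, h2, add_zero]
      smul_mem' := by
        intro c τ h α hα
        have h1 := h α hα
        simp only [Pi.smul_apply, smul_eq_mul]
        push_cast
        have h2 : ∀ i, α i * ((c : ℂ) * (τ i : ℂ)) = (c : ℂ) * (α i * (τ i : ℂ)) := by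
          intro i; ring
        simp only [h2]
        rw [← Finset.mul_sum, h1, mul_zero] }
  have hFmem : ∀ τ, τ ∈ F ↔ ∀ α ∈ N0, ∑ i, α i * (τ i : ℂ) = 0 := fun τ => Iff.rfl
  have hRm := finrank_Rm_ge K Rm F (fun t ht => (hFmem _).mpr (fun α hα => hT t ht α hα))
  obtain ⟨d', e, v, hd', hv, hev, hexp⟩ := pivot_basis F
  -- dimension of `N0`
  have hNd : finrank ℂ N0 + finrank K F ≤ d := by
    rw [hd']
    let S : Submodule ℂ (Fin d → ℂ) :=
      Submodule.span ℂ (Set.range (fun k : Fin d' => fun i => (v k i : ℂ)))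
    have hS : finrank ℂ S = d' := by
      have hli : LinearIndependent ℂ (fun k : Fin d' => fun i => (v k i : ℂ)) := by
        rw [Fintype.linearIndependent_iff]
        intro g hg k
        have h1 := congrFun hg (e k)
        rw [Finset.sum_apply, Finset.sum_eq_single k] at h1
        · simpa [hev k k] using h1
        · intro k' _ hk'
          simp [hev k k', Ne.symm hk']
        · intro h; exact absurd (Finset.mem_univ _) h
      have := finrank_span_eq_card hli
      rwa [Fintype.card_fin] at this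
    have h1 := ortho_le N0 S (by
      intro α hα c hc
      refine Submodule.span_induction (p := fun c _ => ∑ i, α i * c i = 0) ?_ ?_ ?_ ?_ hc
      · rintro _ ⟨k, rfl⟩
        exact (hFmem _).mp (hv k) α hα
      · simp
      · intro c c' _ _ h h'
        simp only [Pi.add_apply, mul_add, Finset.sum_add_distrib, h, h', add_zero]
      · intro b c _ h
        have h2 : ∀ i, α i * (b • c) i = b * (α i * c i) := by
          intro i
          rw [Pi.smul_apply, smul_eq_mul]; ring
        simp only [h2]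
        rw [← Finset.mul_sum, h, mul_zero])
    omega
  -- the orthogonal of `F` over `K`
  let b := Module.finBasis K F
  let T : (Fin d → K) →ₗ[K] (Fin (finrank K F) → K) :=
    { toFun := fun α k => ∑ i, α i * (b k : Fin d → K) i
      map_add' := by
        intro α α'
        funext k
        simp only [Pi.add_apply, add_mul, Finset.sum_add_distrib]
      map_smul' := by
        intro c α
        funext k
        simp only [Pi.smul_apply, smul_eq_mul, mul_assoc, ← Finset.mul_sum, RingHom.id_apply] }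
  have hrn := LinearMap.finrank_range_add_finrank_ker T
  have hrg : finrank K (LinearMap.range T) ≤ finrank K F := by
    have h1 := Submodule.finrank_le (LinearMap.range T)
    rwa [finrank_fin_fun] at h1
  rw [finrank_fin_fun] at hrn
  have hNF : ∀ α ∈ LinearMap.ker T, ∀ τ ∈ F, ∑ i, α i * τ i = 0 := by
    intro α hα τ hτ
    have h1 : ∀ k, ∑ i, α i * (b k : Fin d → K) i = 0 := fun k => congrFun hα k
    have h2 : τ = ∑ k, b.repr ⟨τ, hτ⟩ k • (b k : Fin d → K) := by
      have h3 := congrArg (fun z : F => (z : Fin d → K)) (b.sum_repr ⟨τ, hτ⟩)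
      simp only [Submodule.coe_sum, Submodule.coe_smul] at h3
      exact h3.symm
    rw [h2]
    have h3 : ∀ i, α i * (∑ k, b.repr ⟨τ, hτ⟩ k • (b k : Fin d → K)) i =
        ∑ k, b.repr ⟨τ, hτ⟩ k * (α i * (b k : Fin d → K) i) := by
      intro i
      rw [Finset.sum_apply, Finset.mul_sum]
      refine Finset.sum_congr rfl fun k _ => ?_
      rw [Pi.smul_apply, smul_eq_mul]
      ring
    rw [Finset.sum_congr rfl (fun i _ => h3 i), Finset.sum_comm]
    refine Finset.sum_eq_zero fun k _ => ?_
    rw [← Finset.mul_sum, h1 k, mul_zero]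
  have hortho := ortho_le (LinearMap.ker T) F hNF
  have hδ : finrank K (LinearMap.ker T) + finrank K F = d := by omega
  -- the space of the points
  let S : Submodule K (Fin l → K) :=
    Submodule.span K {z | ∃ s ∈ G0, z = kk K (fun p => (s p : ℚ))}
  have hG0le := finrank_G0_le K G0 S (fun s hs => Submodule.subset_span ⟨s, hs, rfl⟩)
  refine ⟨LinearMap.ker T, S, by omega, by omega, ?_, ?_⟩
  · -- numerical
    have h1 : finrank ℂ N0 ≤ finrank K (LinearMap.ker T) := by omega
    have h2 : finrank K (LinearMap.ker T) * dg K ≤ finrank ℤ Rm := by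
      have h3 : (finrank K (LinearMap.ker T) + finrank K F) * dg K = d * dg K :=
        congrArg (fun z => z * dg K) hδ
      have h4 : (finrank K (LinearMap.ker T) + finrank K F) * dg K =
        finrank K (LinearMap.ker T) * dg K + dg K * finrank K F := by ring
      omega
    have h4 : (l - finrank K S) * dg K ≤ l * dg K - finrank ℤ G0 := by
      rw [Nat.sub_mul]
      have : finrank K S * dg K = dg K * finrank K S := mul_comm _ _
      omega
    calc (finrank K (LinearMap.ker T) + (l - finrank K S)) * dg K * σ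
        ≤ (finrank ℤ Rm + (l * dg K - finrank ℤ G0)) * σ := by
          apply Nat.mul_le_mul_right
          rw [add_mul]
          exact Nat.add_le_add h2 h4
      _ ≤ finrank ℂ N0 * κ := hfin
      _ ≤ _ := Nat.mul_le_mul_right _ h1
  · -- the values
    intro α hα s hs
    have hα' := hNF α hα
    have key : ∀ s ∈ G0, ∃ c : K, ∑ i, ∑ j, (α i : ℂ) * (kk K (fun p => (s p : ℚ)) j : ℂ) * a i j =
        (c : ℂ) * P0 𝓛 := by
      intro s hs
      obtain ⟨-, h2⟩ := hG s hs
      obtain ⟨τ, hτ⟩ := comb_twoPi K Rm (fun q => α (f1 q) * bs K (f2 q)) (by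
          intro t ht
          have h5 := hα' (kk K t) ((hFmem (kk K t)).mpr (fun α hα => hT t ht α hα))
          have h6 := congrArg (fun z : K => (z : ℂ)) h5
          simp only [IntermediateField.coe_sum, ZeroMemClass.coe_zero] at h6
          rw [← h6, sum_pr]
          refine Finset.sum_congr rfl fun i _ => ?_
          unfold kk
          push_cast
          rw [tau_coe, Finset.mul_sum]
          refine Finset.sum_congr rfl fun h _ => ?_
          rw [f1_pr, f2_pr]
          unfold om
          ring)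
        (fun q => ∑ p, um K u (f1 q) (f2 q) p * (s p : ℂ)) (P0 𝓛) (by
          intro m hm
          refine P0_spec ?_ (h2 m hm)
          refine Submodule.sum_mem _ fun q _ => ?_
          have h3 : (∑ p, um K u (f1 q) (f2 q) p * (s p : ℂ)) ∈ 𝓛 := by
            refine Submodule.sum_mem _ fun p _ => ?_
            have h4 := 𝓛.smul_mem (s p : ℚ) (um_memP K 𝓛 u hu (f1 q) (f2 q) p)
            rw [Rat.smul_def] at h4
            push_cast at h4
            rwa [mul_comm] at h4
          have h4 := 𝓛.smul_mem (m q : ℚ) h3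
          rw [Rat.smul_def] at h4
          push_cast at h4
          exact h4)
      refine ⟨τ, ?_⟩
      rw [← hτ, sum_pr]
      refine Finset.sum_congr rfl fun i _ => ?_
      have h1 := sum_kk K (fun p => (s p : ℚ)) (fun j => a i j)
      have h3 : ∑ j, (α i : ℂ) * (kk K (fun p => (s p : ℚ)) j : ℂ) * a i j =
          (α i : ℂ) * ∑ p, om K (f2 p) * a i (f1 p) * (((s p : ℚ)) : ℂ) := by
        rw [h1, Finset.mul_sum]
        refine Finset.sum_congr rfl fun j _ => ?_
        ring
      rw [h3, Finset.mul_sum]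
      have h4 : ∀ p, (α i : ℂ) * (om K (f2 p) * a i (f1 p) * (((s p : ℚ)) : ℂ)) =
          ∑ h, (α i : ℂ) * (om K h * (um K u i h p * (s p : ℂ))) := by
        intro p
        rw [factA K a (fun _ _ => 0) u ha' i p]
        unfold av
        rw [ZeroMemClass.coe_zero, mul_zero, zero_add, Finset.sum_mul, Finset.mul_sum]
        refine Finset.sum_congr rfl fun h _ => ?_
        push_cast
        ring
      rw [Finset.sum_congr rfl (fun p _ => h4 p), Finset.sum_comm]
      refine Finset.sum_congr rfl fun h _ => ?_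
      beta_reduce
      rw [f1_pr, f2_pr, Finset.mul_sum]
      refine Finset.sum_congr rfl fun p _ => ?_
      push_cast
      unfold om
      ring
    have hSZ : S ≤ valSub K a α (P0 𝓛) := by
      refine Submodule.span_le.2 ?_
      rintro _ ⟨s, hs, rfl⟩
      exact key s hs
    exact hSZ hs

/-- **The linear subgroup theorem over number fields.** -/
theorem lstk (hO : ObsProp 𝓛) : LSTK 𝓛 (P0 𝓛) := by
  intro K _ d l ρ a X Y hρ ha hXY
  choose u hu hau using fun i j => span_KP K 𝓛 (ha i j)
  have hg : 1 ≤ dg K := Nat.one_le_iff_ne_zero.mpr (NeZero.ne (dg K))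
  obtain ⟨k, hk⟩ : ∃ k, d = ρ + k := ⟨d - ρ, by omega⟩
  have hk1 : 1 ≤ k := by omega
  obtain ⟨C, hC⟩ : ∃ C, C = ρ + d * dg K + 1 := ⟨_, rfl⟩
  obtain ⟨T, hT⟩ : ∃ T, T = d * C + 1 := ⟨_, rfl⟩
  have hkd : k * T ≤ d * dg K * T := by
    apply Nat.mul_le_mul_right
    calc k = k * 1 := (mul_one k).symm
      _ ≤ d * dg K := Nat.mul_le_mul (by omega) hg
  obtain ⟨N, S, hN1, hNd, hineq, hval⟩ := lst_core K 𝓛 hO d l ρ a u hu hau X Y hXY
    (d * dg K * T + C) (d * dg K * T + C - k * T) (k * T) (by omega) (by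
      obtain ⟨μ, hμ⟩ : ∃ μ, μ = d * dg K * T + C - k * T := ⟨_, rfl⟩
      rw [← hμ]
      have h1 : μ + k * T = d * dg K * T + C := by omega
      obtain ⟨D, hD⟩ : ∃ D, D = d * dg K := ⟨_, rfl⟩
      rw [← hD] at h1 hC ⊢
      -- `k κ = D k T + k C`
      have h2 : D * μ + D * (k * T) = D * (D * T + C) := by rw [← mul_add, h1]
      have h3 : d * (D * T + C) = ρ * (D * T + C) + k * (D * T + C) := by rw [hk]; ring
      have h4 : C ≤ k * C := by
        calc C = 1 * C := (one_mul C).symm
          _ ≤ k * C := Nat.mul_le_mul_right _ hk1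
      have h5 : (D * T + C + 1) * (ρ + D) + 1 = ρ * (D * T + C) + D * (D * T + C) + C := by
        rw [hC]; ring
      have h6 : k * (D * T + C) = D * (k * T) + k * C := by ring
      omega) (Nat.mul_pos (by omega) (by omega))
  refine ⟨N, S, ?_, ?_, hval⟩
  · intro h
    rw [h, finrank_bot] at hN1
    omega
  · obtain ⟨δ, hδ⟩ : ∃ δ, δ = finrank K N := ⟨_, rfl⟩
    obtain ⟨q, hq⟩ : ∃ q, q = l - finrank K S := ⟨_, rfl⟩
    rw [← hδ, ← hq] at hineq
    rw [← hδ] at hNd
    rw [← hδ, ← hq]
    have hmain : (δ + q) * k ≤ δ * d := by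
      by_contra hcon
      push Not at hcon
      have h1 : (δ * d + 1) * (dg K * T) ≤ ((δ + q) * k) * (dg K * T) :=
        Nat.mul_le_mul_right _ hcon
      have h2 : ((δ + q) * k) * (dg K * T) = (δ + q) * dg K * (k * T) := by ring
      have h3 : (δ * d + 1) * (dg K * T) = δ * (d * dg K * T) + dg K * T := by ring
      have h4 : δ * (d * dg K * T + C) = δ * (d * dg K * T) + δ * C := by ring
      have h5 : T ≤ dg K * T := Nat.le_mul_of_pos_left _ hg
      have h6 : δ * C ≤ d * C := Nat.mul_le_mul_right _ hNd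
      omega
    have h1 : d - ρ = k := by omega
    rw [h1]
    have h2 : (δ + q) * k = δ * k + q * k := by ring
    have h3 : δ * d = δ * ρ + δ * k := by rw [hk]; ring
    omega

end points

end Pool.Agent.P8H63.RS
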